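import Mathlib
import Pool.Agent.Y682.LocA
import Pool.Agent.TH841.NF.Chi

/-!
# The 2-descent for a curve with rational points of order two: the local part
-/

set_option autoImplicit false

namespace Pool.Agent.N891.QB

open WeierstrassCurve

open Pool.Agent.TH841.SH (IsR IsX gf isX_zero isX_some not_isX)

open Pool.Agent.TH841.SH.D (Pt act Gal Coch IsCoc IsCob LocTriv)

open Pool.Agent.Y682 (aT sm sm_inj act_sm sm_ne_zero pt_zero_or fix_coord fix_mem act_some)

section

variable {k : Type} [Field k] {W : WeierstrassCurve k} {a b c : k}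

lemma baseR (h : IsR W a b c) (L : Type) [Field L] [Algebra k L] :
    IsR (W.baseChange L) (algebraMap k L a) (algebraMap k L b) (algebraMap k L c) where
  h1 := by
    show algebraMap k L W.a₁ = 0
    rw [h.h1, map_zero]
  h2 := by
    show algebraMap k L W.a₂ = _
    rw [h.h2, map_neg, map_add, map_add]
  h3 := by
    show algebraMap k L W.a₃ = 0
    rw [h.h3, map_zero]
  h4 := by
    show algebraMap k L W.a₄ = _
    rw [h.h4, map_add, map_add, map_mul, map_mul, map_mul]
  h6 := by
    show algebraMap k L W.a₆ = _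
    rw [h.h6, map_neg, map_mul, map_mul]

lemma actX {F L : Type} [Field F] [Field L] [Algebra k F] [Algebra k L] (φ : F →ₐ[k] L) (e : k)
    (T : Pt W F) : IsX (W.baseChange L) (algebraMap k L e) (act W φ T) ↔
      IsX (W.baseChange F) (algebraMap k F e) T := by
  rcases T with _ | ⟨x, y, h⟩
  · exact ⟨fun _ => Or.inl rfl, fun _ => Or.inl rfl⟩
  · by_cases hx : x = algebraMap k F e
    · subst hx
      refine ⟨fun _ => isX_some h, fun _ => ?_⟩
      rw [act_some]
      right
      refine ⟨φ y, ?_, ?_⟩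
      · have := (Affine.baseChange_nonsingular W φ.injective ..).mpr h
        rwa [φ.commutes] at this
      · congr 1
        exact φ.commutes e
    · refine ⟨fun h' => absurd h' ?_, fun h' => absurd h' (not_isX h hx)⟩
      rw [act_some]
      apply not_isX
      intro h2
      apply hx
      apply φ.injective
      show φ x = φ (algebraMap k F e)
      rw [h2, φ.commutes]

/-- three different elements -/
structure Ds {L : Type} (a b c : L) : Prop where
  ab : a ≠ b
  ac : a ≠ c
  bc : b ≠ c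

lemma Ds.swap {L : Type} {a b c : L} (h : Ds a b c) : Ds b a c := ⟨h.ab.symm, h.bc, h.ac⟩

lemma Ds.map {L L' : Type} [Field L] [Field L'] {a b c : L} (h : Ds a b c) (φ : L →+* L') :
    Ds (φ a) (φ b) (φ c) := ⟨φ.injective.ne h.ab, φ.injective.ne h.ac, φ.injective.ne h.bc⟩

end

/-- the local condition -/
def Lc {L : Type} [Field L] (a b c u v : L) : Prop :=
  ∃ x y : L, y ≠ 0 ∧ y ^ 2 = (x - a) * (x - b) * (x - c) ∧ IsSquare ((x - a) * u) ∧
    IsSquare ((x - b) * v)

section

variable {k : Type} [Field k] [CharZero k] {W : WeierstrassCurve k} {a b c : k}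
  {F : Type} [Field F] [CharZero F] [Algebra k F]

/-- the square root of `x (2 P) - a` -/
noncomputable def gg {L : Type} [Field L] (a b c u v : L) : L :=
  ((u - a) ^ 2 - (a - b) * (a - c)) / (2 * v)

/-- the signs -/
lemma sgn (h : IsR W a b c) (hd : Ds a b c) {u v : AlgebraicClosure F}
    (hn : (W.baseChange (AlgebraicClosure F)).toAffine.Nonsingular u v) (hv : v ≠ 0) (τ : Gal F)
    {T : Pt W (AlgebraicClosure F)} (hT : T + T = 0) (hPT : aT W τ (sm u v hn) = sm u v hn + T) :
    (IsX (W.baseChange (AlgebraicClosure F)) (algebraMap k _ a) T →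
      τ (gg (algebraMap k _ a) (algebraMap k _ b) (algebraMap k _ c) u v) =
        gg (algebraMap k _ a) (algebraMap k _ b) (algebraMap k _ c) u v) ∧
    (¬ IsX (W.baseChange (AlgebraicClosure F)) (algebraMap k _ a) T →
      τ (gg (algebraMap k _ a) (algebraMap k _ b) (algebraMap k _ c) u v) =
        - gg (algebraMap k _ a) (algebraMap k _ b) (algebraMap k _ c) u v) := by
  have h2 : (2 : AlgebraicClosure F) ≠ 0 := two_ne_zero
  have hR := baseR h (AlgebraicClosure F)
  have hD := hd.map (algebraMap k (AlgebraicClosure F))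
  obtain ⟨u', v', hn', e1, e2, e3, e4⟩ := @IsR.sign _ _ _ _ _ _ (Classical.decEq _) hR h2
    hD.ab hD.ac hD.bc _ _ hn hv _ hT
  have e5 := hPT.trans e1
  rw [act_sm] at e5
  obtain ⟨e6, e7⟩ := sm_inj (W := W) e5
  have hcomm : ∀ z : k, τ (algebraMap k (AlgebraicClosure F) z) =
      algebraMap k (AlgebraicClosure F) z := fun z => (τ.toAlgHom.restrictScalars k).commutes z
  have e6' : τ u = u' := e6
  have e7' : τ v = v' := e7
  have e8 : gf (W.baseChange (AlgebraicClosure F)) (algebraMap k _ a) (algebraMap k _ b)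
      (algebraMap k _ c) (.some u' v' hn') =
      τ (gg (algebraMap k _ a) (algebraMap k _ b) (algebraMap k _ c) u v) := by
    show ((u' - _) ^ 2 - _) / (2 * v') = _
    unfold gg
    rw [map_div₀, map_sub, map_pow, map_sub, map_mul, map_mul, map_sub, map_sub, map_ofNat,
      hcomm, hcomm, hcomm, e6', e7']
  rw [e8] at e3 e4
  exact ⟨e3, e4⟩

omit [CharZero k] in
/-- an element with square in `F` is mapped to itself or its opposite -/
lemma sq_or {s : AlgebraicClosure F} {e : F} (hs : s ^ 2 = algebraMap F _ e) (τ : Gal F) :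
    τ s = s ∨ τ s = -s := by
  apply sq_eq_sq_iff_eq_or_eq_neg.1
  rw [← map_pow, hs, AlgEquiv.commutes]

omit [CharZero k] in
lemma ne_neg {s : AlgebraicClosure F} (hs : s ≠ 0) : -s ≠ s := by
  intro h
  have h1 : (2 : AlgebraicClosure F) * s = 0 := by linear_combination -h
  exact mul_ne_zero two_ne_zero hs h1

/-- one of the square classes -/
lemma one_sq (h : IsR W a b c) (hd : Ds a b c) {u v : AlgebraicClosure F}
    (hn : (W.baseChange (AlgebraicClosure F)).toAffine.Nonsingular u v) (hv : v ≠ 0)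
    (T : Gal F → Pt W (AlgebraicClosure F)) (hT : ∀ τ, T τ + T τ = 0)
    (hPT : ∀ τ, aT W τ (sm u v hn) = sm u v hn + T τ) {e : F} {s : AlgebraicClosure F}
    (hs : s ^ 2 = algebraMap F _ e)
    (hse : ∀ τ : Gal F, IsX (W.baseChange (AlgebraicClosure F)) (algebraMap k _ a) (T τ) ↔
      τ s = s) {x : F}
    (hx : algebraMap F _ x - algebraMap k _ a =
      gg (algebraMap k _ a) (algebraMap k _ b) (algebraMap k _ c) u v ^ 2) :
    IsSquare ((x - algebraMap k F a) * e) := by
  obtain ⟨z, hz⟩ : ∃ z : F, algebraMap F (AlgebraicClosure F) z =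
      gg (algebraMap k _ a) (algebraMap k _ b) (algebraMap k _ c) u v * s := by
    apply fix_mem
    intro τ
    have h1 := sgn h hd hn hv τ (hT τ) (hPT τ)
    rw [map_mul]
    by_cases hX : IsX (W.baseChange (AlgebraicClosure F)) (algebraMap k _ a) (T τ)
    · rw [h1.1 hX, (hse τ).1 hX]
    · rw [h1.2 hX]
      rcases sq_or hs τ with h5 | h5
      · exact absurd ((hse τ).2 h5) hX
      · rw [h5, neg_mul_neg]
  refine ⟨z, ?_⟩
  apply (algebraMap F (AlgebraicClosure F)).injective
  rw [map_mul, map_mul, hz, map_sub, ← IsScalarTower.algebraMap_apply, hx, ← hs]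
  ring

/-- from a point over the algebraic closure to a point over the field -/
theorem toLc (h : IsR W a b c) (hd : Ds a b c) {R : Pt W (AlgebraicClosure F)}
    (hR4 : (R + R) + (R + R) ≠ 0) (T : Gal F → Pt W (AlgebraicClosure F))
    (hT : ∀ τ, T τ + T τ = 0) (hRT : ∀ τ, aT W τ R = R + T τ) {e e' : F}
    {s s' : AlgebraicClosure F} (hs : s ^ 2 = algebraMap F _ e) (hs' : s' ^ 2 = algebraMap F _ e')
    (hse : ∀ τ : Gal F, IsX (W.baseChange (AlgebraicClosure F)) (algebraMap k _ a) (T τ) ↔
      τ s = s)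
    (hse' : ∀ τ : Gal F, IsX (W.baseChange (AlgebraicClosure F)) (algebraMap k _ b) (T τ) ↔
      τ s' = s') :
    Lc (algebraMap k F a) (algebraMap k F b) (algebraMap k F c) e e' := by
  have h2 : (2 : AlgebraicClosure F) ≠ 0 := two_ne_zero
  have hbR := baseR h (AlgebraicClosure F)
  have hD := hd.map (algebraMap k (AlgebraicClosure F))
  rcases pt_zero_or R with rfl | ⟨u, v, hn, rfl⟩
  · exact absurd (by simp) hR4
  have hv : v ≠ 0 := by
    intro hv
    have h5 : sm u v hn + sm u v hn = 0 :=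
      (@IsR.add_self _ _ _ _ _ _ (Classical.decEq _) hbR h2 _ _ hn).2 hv
    rw [h5] at hR4
    exact hR4 (add_zero 0)
  obtain ⟨X, Y, hn', e1, hXa⟩ := @IsR.dup _ _ _ _ _ _ (Classical.decEq _) hbR h2 _ _ hn hv
  obtain ⟨X', Y', hn'', e1', hXb⟩ :=
    @IsR.dup _ _ _ _ _ _ (Classical.decEq _) hbR.swap h2 _ _ hn hv
  rw [e1, Affine.Point.some.injEq] at e1'
  obtain ⟨rfl, rfl⟩ := e1'
  have e1s : sm (W := W) u v hn + sm u v hn = sm X Y hn' := e1
  have hY : Y ≠ 0 := by
    intro hY
    apply hR4
    rw [e1s]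
    exact (@IsR.add_self _ _ _ _ _ _ (Classical.decEq _) hbR h2 _ _ hn').2 hY
  have hfix : ∀ τ : Gal F, aT W τ (sm X Y hn') = sm X Y hn' := by
    intro τ
    rw [← e1s, map_add, hRT τ]
    have h8 : ∀ A B : Pt W (AlgebraicClosure F), (A + B) + (A + B) = (A + A) + (B + B) :=
      fun A B => by abel
    rw [h8, hT, add_zero]
  obtain ⟨x, y, hx, hy⟩ := fix_coord hn' hfix
  refine ⟨x, y, ?_, ?_, ?_, ?_⟩
  · rintro rfl
    rw [map_zero] at hy
    exact hY hy.symm
  · apply (algebraMap F (AlgebraicClosure F)).injective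
    have h9 := (hbR.eqn X Y).1 hn'.1
    rw [map_pow, map_mul, map_mul, map_sub, map_sub, map_sub, hx, hy,
      ← IsScalarTower.algebraMap_apply, ← IsScalarTower.algebraMap_apply,
      ← IsScalarTower.algebraMap_apply, h9]
  · refine one_sq h hd hn hv T hT hRT hs hse ?_
    rw [hx]
    exact hXa
  · refine one_sq h.swap hd.swap hn hv T hT hRT hs' hse' ?_
    rw [hx]
    exact hXb

/-- one of the signs for a halved point -/
lemma one_half (h : IsR W a b c) (hd : Ds a b c) {u v : AlgebraicClosure F}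
    (hn : (W.baseChange (AlgebraicClosure F)).toAffine.Nonsingular u v) (hv : v ≠ 0) (τ : Gal F)
    {T : Pt W (AlgebraicClosure F)} (hT : T + T = 0) (hPT : aT W τ (sm u v hn) = sm u v hn + T)
    {e : F} (he : e ≠ 0) {s : AlgebraicClosure F} (hs : s ^ 2 = algebraMap F _ e) {x : F}
    (hx0 : x - algebraMap k F a ≠ 0)
    (hx : algebraMap F _ x - algebraMap k _ a =
      gg (algebraMap k _ a) (algebraMap k _ b) (algebraMap k _ c) u v ^ 2)
    (hsq : IsSquare ((x - algebraMap k F a) * e)) :
    IsX (W.baseChange (AlgebraicClosure F)) (algebraMap k _ a) T ↔ τ s = s := by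
  obtain ⟨z, hz⟩ := hsq
  have hs0 : s ≠ 0 := by
    rintro rfl
    rw [zero_pow two_ne_zero, eq_comm, map_eq_zero] at hs
    exact he hs
  have hg0 : gg (algebraMap k (AlgebraicClosure F) a) (algebraMap k _ b) (algebraMap k _ c) u v
      ≠ 0 := by
    intro h0
    rw [h0, zero_pow two_ne_zero] at hx
    apply hx0
    apply (algebraMap F (AlgebraicClosure F)).injective
    rw [map_sub, ← IsScalarTower.algebraMap_apply, hx, map_zero]
  have h3 : (gg (algebraMap k (AlgebraicClosure F) a) (algebraMap k _ b) (algebraMap k _ c) u v *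
      s) ^ 2 = (algebraMap F (AlgebraicClosure F) z) ^ 2 := by
    rw [mul_pow, ← hx, hs, IsScalarTower.algebraMap_apply k F (AlgebraicClosure F) a, ← map_sub,
      ← map_mul, hz, map_mul, sq]
  have h4 : τ (gg (algebraMap k (AlgebraicClosure F) a) (algebraMap k _ b) (algebraMap k _ c) u v *
      s) = gg (algebraMap k (AlgebraicClosure F) a) (algebraMap k _ b) (algebraMap k _ c) u v *
      s := by
    rcases sq_eq_sq_iff_eq_or_eq_neg.1 h3 with h5 | h5
    · rw [h5, AlgEquiv.commutes]
    · rw [h5, map_neg, AlgEquiv.commutes]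
  rw [map_mul] at h4
  have h1 := sgn h hd hn hv τ hT hPT
  constructor
  · intro hX
    rw [h1.1 hX] at h4
    exact mul_left_cancel₀ hg0 h4
  · intro h5
    by_contra hX
    rw [h1.2 hX, h5] at h4
    have h6 := mul_right_cancel₀ hs0 h4
    exact ne_neg hg0 h6

/-- from a point over the field to a point over the algebraic closure -/
theorem ofLc (h : IsR W a b c) (hd : Ds a b c) {e e' : F} (he : e ≠ 0) (he' : e' ≠ 0)
    {s s' : AlgebraicClosure F} (hs : s ^ 2 = algebraMap F _ e) (hs' : s' ^ 2 = algebraMap F _ e')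
    (hL : Lc (algebraMap k F a) (algebraMap k F b) (algebraMap k F c) e e') :
    ∃ R : Pt W (AlgebraicClosure F), ∀ τ : Gal F,
      (aT W τ R - R) + (aT W τ R - R) = 0 ∧
      (IsX (W.baseChange (AlgebraicClosure F)) (algebraMap k _ a) (aT W τ R - R) ↔ τ s = s) ∧
      (IsX (W.baseChange (AlgebraicClosure F)) (algebraMap k _ b) (aT W τ R - R) ↔ τ s' = s') := by
  obtain ⟨x, y, hy, hxy, hsq, hsq'⟩ := hL
  have h2 : (2 : AlgebraicClosure F) ≠ 0 := two_ne_zero
  have hbR := baseR h (AlgebraicClosure F)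
  have hD := hd.map (algebraMap k (AlgebraicClosure F))
  have hxa : x - algebraMap k F a ≠ 0 := by
    intro h0
    rw [h0, zero_mul, zero_mul] at hxy
    exact hy (pow_eq_zero_iff two_ne_zero |>.1 hxy)
  have hxb : x - algebraMap k F b ≠ 0 := by
    intro h0
    rw [h0, mul_zero, zero_mul] at hxy
    exact hy (pow_eq_zero_iff two_ne_zero |>.1 hxy)
  have heq : (algebraMap F (AlgebraicClosure F) y) ^ 2 =
      (algebraMap F (AlgebraicClosure F) x - algebraMap k _ a) *
      (algebraMap F (AlgebraicClosure F) x - algebraMap k _ b) *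
      (algebraMap F (AlgebraicClosure F) x - algebraMap k _ c) := by
    rw [IsScalarTower.algebraMap_apply k F (AlgebraicClosure F) a,
      IsScalarTower.algebraMap_apply k F (AlgebraicClosure F) b,
      IsScalarTower.algebraMap_apply k F (AlgebraicClosure F) c, ← map_sub, ← map_sub, ← map_sub,
      ← map_mul, ← map_mul, ← map_pow, hxy]
  have hnP := hbR.nons h2 hD.ab hD.ac hD.bc heq
  obtain ⟨R, hR⟩ : ∃ R : Pt W (AlgebraicClosure F), sm _ _ hnP = R + R :=
    @IsR.div _ _ _ _ _ _ (Classical.decEq _) _ hbR h2 hD.ab hD.ac hD.bc (sm _ _ hnP)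
  have hfix : ∀ τ : Gal F, aT W τ (sm _ _ hnP) = sm _ _ hnP := by
    intro τ
    rw [act_sm]
    unfold sm
    congr 1
    · exact τ.commutes x
    · exact τ.commutes y
  have hTT : ∀ τ : Gal F, (aT W τ R - R) + (aT W τ R - R) = 0 := by
    intro τ
    have h3 : (aT W τ R - R) + (aT W τ R - R) = aT W τ (R + R) - (R + R) := by
      rw [map_add]; abel
    rw [h3, ← hR, hfix, sub_self]
  have hact : ∀ τ : Gal F, aT W τ R = R + (aT W τ R - R) := by
    intro τ; abel
  refine ⟨R, fun τ => ⟨hTT τ, ?_⟩⟩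
  rcases pt_zero_or R with h0 | ⟨u, v, hn, h0⟩
  · rw [h0, add_zero] at hR
    exact absurd hR (sm_ne_zero _)
  have hv : v ≠ 0 := by
    intro hv
    have h5 : sm u v hn + sm u v hn = 0 :=
      (@IsR.add_self _ _ _ _ _ _ (Classical.decEq _) hbR h2 _ _ hn).2 hv
    rw [h0, h5] at hR
    exact sm_ne_zero _ hR
  obtain ⟨X, Y, hn', e1, hXa⟩ := @IsR.dup _ _ _ _ _ _ (Classical.decEq _) hbR h2 _ _ hn hv
  obtain ⟨X', Y', hn'', e1', hXb⟩ :=
    @IsR.dup _ _ _ _ _ _ (Classical.decEq _) hbR.swap h2 _ _ hn hv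
  have e1s : sm (W := W) u v hn + sm u v hn = sm X Y hn' := e1
  have e1s' : sm (W := W) u v hn + sm u v hn = sm X' Y' hn'' := e1'
  have hX1 : algebraMap F (AlgebraicClosure F) x = X := by
    rw [h0, e1s] at hR
    exact (sm_inj (W := W) hR).1
  have hX2 : algebraMap F (AlgebraicClosure F) x = X' := by
    rw [h0, e1s'] at hR
    exact (sm_inj (W := W) hR).1
  rw [← hX1] at hXa
  rw [← hX2] at hXb
  have hT := hTT τ
  have hA := hact τ
  generalize aT W τ R - R = T at hT hA ⊢
  rw [h0] at hA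
  exact ⟨one_half h hd hn hv τ hT hA he hs hxa hXa hsq,
    one_half h.swap hd.swap hn hv τ hT hA he' hs' hxb hXb hsq'⟩

end

end Pool.Agent.N891.QB
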