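import Mathlib
import Pool.Agent.N891.QB.Loc

/-!
# The 2-descent for a curve with rational points of order two: local triviality
-/

set_option autoImplicit false

namespace Pool.Agent.N891.QB

open WeierstrassCurve

open Pool.Agent.TH841.SH (IsR IsX gf isX_zero isX_some not_isX)

open Pool.Agent.TH841.SH.D (Pt act Gal Coch IsCoc IsCob LocTriv)

open Pool.Agent.Y682 (aT sm sm_inj act_sm sm_ne_zero pt_zero_or fix_coord fix_mem act_some)

section

variable {k : Type} [Field k] [CharZero k] {W : WeierstrassCurve k} {a b c : k}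
  {F : Type} [Field F] [CharZero F] [Algebra k F]

omit [CharZero k] [CharZero F] in
/-- restriction of automorphisms -/
lemma exists_restr (ι : AlgebraicClosure k →ₐ[k] AlgebraicClosure F) (τ : Gal F) :
    ∃ σ : Gal k, ∀ x, τ (ι x) = ι (σ x) := by
  let _ : Algebra (AlgebraicClosure k) (AlgebraicClosure F) := ι.toRingHom.toAlgebra
  have : IsScalarTower k (AlgebraicClosure k) (AlgebraicClosure F) :=
    IsScalarTower.of_algebraMap_eq (fun x => (ι.commutes x).symm)
  let τ' : AlgebraicClosure F ≃ₐ[k] AlgebraicClosure F := τ.restrictScalars k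
  have : Normal k (AlgebraicClosure k) := IsAlgClosure.normal k (AlgebraicClosure k)
  refine ⟨τ'.restrictNormal (AlgebraicClosure k), fun x => ?_⟩
  exact (AlgEquiv.restrictNormal_commutes τ' (AlgebraicClosure k) x).symm

/-- `f` has values in the points of order two, and the two characters are those of the square roots
of `u`, `v` -/
structure Kc (W : WeierstrassCurve k) (a b : k) (f : Coch W) (u v : k) : Prop where
  t : ∀ σ, f σ + f σ = 0
  x : ∀ s : AlgebraicClosure k, s ^ 2 = algebraMap k _ u → ∀ σ : Gal k,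
    IsX (W.baseChange (AlgebraicClosure k)) (algebraMap k _ a) (f σ) ↔ σ s = s
  y : ∀ s : AlgebraicClosure k, s ^ 2 = algebraMap k _ v → ∀ σ : Gal k,
    IsX (W.baseChange (AlgebraicClosure k)) (algebraMap k _ b) (f σ) ↔ σ s = s

/-- a point with all the differences squares -/
def Hp (F : Type) [Field F] (a b c : F) : Prop :=
  ∃ x y : F, y ≠ 0 ∧ y ^ 2 = (x - a) * (x - b) * (x - c) ∧ IsSquare (x - a) ∧
    IsSquare (x - b) ∧ IsSquare (x - c)

omit [CharZero k] in
lemma act_zero {L L' : Type} [Field L] [Field L'] [Algebra k L] [Algebra k L'] (φ : L →ₐ[k] L')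
    {P : Pt W L} (h : act W φ P = 0) : P = 0 := by
  rcases P with _ | ⟨x, y, hn⟩
  · rfl
  · exact absurd h (sm_ne_zero (W := W) _)

/-- a point over `F` with `4 S ≠ 0` -/
lemma exists_S (h : IsR W a b c) (hd : Ds a b c)
    (hp : Hp F (algebraMap k F a) (algebraMap k F b) (algebraMap k F c)) :
    ∃ S : Pt W (AlgebraicClosure F), (∀ τ : Gal F, aT W τ S = S) ∧ (S + S) + (S + S) ≠ 0 := by
  obtain ⟨x1, y1, hy1, hxy1, ⟨r1, q1⟩, ⟨r2, q2⟩, ⟨r3, q3⟩⟩ := hp
  have h2K : (2 : F) ≠ 0 := two_ne_zero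
  have hb := baseR h F
  have hD := hd.map (algebraMap k F)
  have hn1 : (W.baseChange F).toAffine.Nonsingular x1 y1 :=
    hb.nons h2K hD.ab hD.ac hD.bc hxy1
  have hhalf : ∃ Q : Pt W F, (sm x1 y1 hn1 : Pt W F) = Q + Q := by
    have h3 : y1 ^ 2 = (r1 * r2 * r3) ^ 2 := by
      rw [hxy1, q1, q2, q3]
      ring
    rcases sq_eq_sq_iff_eq_or_eq_neg.1 h3 with h4 | h4
    · exact @IsR.halve _ _ _ _ _ _ (Classical.decEq _) hb h2K hD.ab hD.ac hD.bc _ _ _ _ _ hn1
        (by rw [q1]; ring) (by rw [q2]; ring) (by rw [q3]; ring) h4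
    · exact @IsR.halve _ _ _ _ _ _ (Classical.decEq _) hb h2K hD.ab hD.ac hD.bc _ _ (-r1) _ _ hn1
        (by rw [q1]; ring) (by rw [q2]; ring) (by rw [q3]; ring) (by rw [h4]; ring)
  obtain ⟨Q, hQ⟩ := hhalf
  let j : F →ₐ[k] AlgebraicClosure F := IsScalarTower.toAlgHom k F (AlgebraicClosure F)
  refine ⟨act W j Q, fun τ => ?_, ?_⟩
  · show act W _ (act W j Q) = _
    rw [Pool.Agent.TH841.NF.act_act]
    congr 2
    ext z
    exact τ.commutes z
  · rw [← map_add, ← map_add, ← hQ]
    intro h0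
    have h5 : sm x1 y1 hn1 + sm x1 y1 hn1 = 0 := act_zero j h0
    exact hy1 ((@IsR.add_self _ _ _ _ _ _ (Classical.decEq _) hb h2K _ _ hn1).1 h5)

/-- from local triviality to the local condition -/
theorem lc_of (h : IsR W a b c) (hd : Ds a b c) {f : Coch W} {u v : k} (hf : Kc W a b f u v)
    (hl : LocTriv W F f)
    (hp : Hp F (algebraMap k F a) (algebraMap k F b) (algebraMap k F c)) :
    Lc (algebraMap k F a) (algebraMap k F b) (algebraMap k F c) (algebraMap k F u)
      (algebraMap k F v) := by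
  obtain ⟨ι⟩ : Nonempty (AlgebraicClosure k →ₐ[k] AlgebraicClosure F) := ⟨IsAlgClosed.lift⟩
  obtain ⟨P, hP⟩ := hl ι
  obtain ⟨S, hSfix, hS4⟩ := exists_S h hd hp
  choose ρ hρ using exists_restr (F := F) ι
  have hPf : ∀ τ, aT W τ P = P + act W ι (f (ρ τ)) := by
    intro τ
    rw [hP τ (ρ τ) (hρ τ)]
    abel
  obtain ⟨R, hR, hR4⟩ : ∃ R : Pt W (AlgebraicClosure F), (∀ τ : Gal F,
      aT W τ R = R + act W ι (f (ρ τ))) ∧ (R + R) + (R + R) ≠ 0 := by
    by_cases h4 : (P + P) + (P + P) = 0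
    · refine ⟨P + S, fun τ => ?_, ?_⟩
      · rw [map_add, hSfix, hPf]
        abel
      · have e1 : ((P + S) + (P + S)) + ((P + S) + (P + S)) =
          ((P + P) + (P + P)) + ((S + S) + (S + S)) := by abel
        rw [e1, h4, zero_add]
        exact hS4
    · exact ⟨P, hPf, h4⟩
  obtain ⟨s, hs⟩ := IsAlgClosed.exists_pow_nat_eq (algebraMap k (AlgebraicClosure k) u)
    (n := 2) (by norm_num)
  obtain ⟨s', hs'⟩ := IsAlgClosed.exists_pow_nat_eq (algebraMap k (AlgebraicClosure k) v)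
    (n := 2) (by norm_num)
  refine toLc h hd hR4 (fun τ => act W ι (f (ρ τ))) (fun τ => ?_) hR (s := ι s) (s' := ι s')
    ?_ ?_ (fun τ => ?_) (fun τ => ?_)
  · rw [← map_add, hf.t, map_zero]
  · rw [← map_pow, hs, ι.commutes, ← IsScalarTower.algebraMap_apply]
  · rw [← map_pow, hs', ι.commutes, ← IsScalarTower.algebraMap_apply]
  · rw [actX, hf.x s hs, hρ τ s]
    exact ι.injective.eq_iff.symm
  · rw [actX, hf.y s' hs', hρ τ s']
    exact ι.injective.eq_iff.symm

/-- from the local condition to local triviality -/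
theorem loc_of (h : IsR W a b c) (hd : Ds a b c) {f : Coch W} {u v : k} (hu : u ≠ 0) (hv : v ≠ 0)
    (hf : Kc W a b f u v)
    (hL : Lc (algebraMap k F a) (algebraMap k F b) (algebraMap k F c) (algebraMap k F u)
      (algebraMap k F v)) : LocTriv W F f := by
  intro ι
  obtain ⟨s, hs⟩ := IsAlgClosed.exists_pow_nat_eq (algebraMap k (AlgebraicClosure k) u)
    (n := 2) (by norm_num)
  obtain ⟨s', hs'⟩ := IsAlgClosed.exists_pow_nat_eq (algebraMap k (AlgebraicClosure k) v)
    (n := 2) (by norm_num)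
  have hbR := baseR h (AlgebraicClosure F)
  have hD := hd.map (algebraMap k (AlgebraicClosure F))
  obtain ⟨R, hR⟩ := ofLc h hd ((map_ne_zero _).2 hu) ((map_ne_zero _).2 hv) (s := ι s) (s' := ι s')
    (by rw [← map_pow, hs, ι.commutes, ← IsScalarTower.algebraMap_apply])
    (by rw [← map_pow, hs', ι.commutes, ← IsScalarTower.algebraMap_apply]) hL
  refine ⟨R, fun τ σ hτσ => ?_⟩
  obtain ⟨h1, h2, h3⟩ := hR τ
  have e1 : act W ι (f σ) + act W ι (f σ) = 0 := by rw [← map_add, hf.t, map_zero]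
  have e2 : IsX (W.baseChange (AlgebraicClosure F)) (algebraMap k _ a) (act W ι (f σ)) ↔
      IsX (W.baseChange (AlgebraicClosure F)) (algebraMap k _ a) (aT W τ R - R) := by
    rw [h2, actX, hf.x s hs, hτσ s]
    exact ι.injective.eq_iff.symm
  have e3 : IsX (W.baseChange (AlgebraicClosure F)) (algebraMap k _ b) (act W ι (f σ)) ↔
      IsX (W.baseChange (AlgebraicClosure F)) (algebraMap k _ b) (aT W τ R - R) := by
    rw [h3, actX, hf.y s' hs', hτσ s']
    exact ι.injective.eq_iff.symm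
  exact @IsR.ext _ _ _ _ _ _ (Classical.decEq _) hbR two_ne_zero hD.ab hD.ac hD.bc _ _ e1 h1 e2 e3

end

end Pool.Agent.N891.QB
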