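import Mathlib
import Pool.Agent.N891.QB.LT

/-!
# The 2-descent for a curve with rational points of order two: cocycles and pairs of square classes
-/

set_option autoImplicit false

namespace Pool.Agent.N891.QB

open WeierstrassCurve

open Pool.Agent.TH841.SH (IsR IsX gf isX_zero isX_some not_isX)

open Pool.Agent.TH841.SH.D (Pt act Gal Coch IsCoc IsCob LocTriv)

open Pool.Agent.Y682 (aT sm sm_inj act_sm sm_ne_zero pt_zero_or fix_coord fix_mem act_some kum)

section

variable {k : Type} [Field k] [CharZero k] {W : WeierstrassCurve k} {a b c : k}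

/-- the points of order two are fixed -/
lemma tors_fix (h : IsR W a b c) {T : Pt W (AlgebraicClosure k)} (hT : T + T = 0) (σ : Gal k) :
    act W σ.toAlgHom T = T := by
  have key : ∀ (e : k) (hn : (W.baseChange (AlgebraicClosure k)).toAffine.Nonsingular
      (algebraMap k _ e) 0), act W σ.toAlgHom (sm (algebraMap k _ e) 0 hn) =
        sm (algebraMap k _ e) 0 hn := by
    intro e hn
    rw [act_sm]
    unfold sm
    congr 1
    · exact σ.commutes e
    · exact map_zero σ
  rcases @IsR.tors _ _ _ _ _ _ (Classical.decEq _) (baseR h (AlgebraicClosure k)) two_ne_zero _ hT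
    with h0 | ⟨ha, h0⟩ | ⟨hb, h0⟩ | ⟨hc, h0⟩
  · rw [show T = 0 from h0]
    exact map_zero _
  · rw [show T = sm _ _ ha from h0]
    exact key a ha
  · rw [show T = sm _ _ hb from h0]
    exact key b hb
  · rw [show T = sm _ _ hc from h0]
    exact key c hc

lemma bool_xor {p q r : Prop} [Decidable p] [Decidable q] [Decidable r] (h : r ↔ (p ↔ q)) :
    decide (¬ r) = xor (decide (¬ p)) (decide (¬ q)) := by
  by_cases hp : p <;> by_cases hq : q <;> simp [h, hp, hq]

/-- one character of a cocycle with values in the points of order two -/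
lemma exists_one (h : IsR W a b c) (hd : Ds a b c) {f : Coch W} (hf : IsCoc W f)
    (ht : ∀ σ, f σ + f σ = 0) : ∃ u : k, u ≠ 0 ∧ ∀ s : AlgebraicClosure k,
      s ^ 2 = algebraMap k _ u → ∀ σ : Gal k,
        IsX (W.baseChange (AlgebraicClosure k)) (algebraMap k _ a) (f σ) ↔ σ s = s := by
  classical
  have hbR := baseR h (AlgebraicClosure k)
  have hD := hd.map (algebraMap k (AlgebraicClosure k))
  obtain ⟨u, hu, hs⟩ := kum
    (fun σ => decide (¬ IsX (W.baseChange (AlgebraicClosure k)) (algebraMap k _ a) (f σ)))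
    (hf.1.comp (fun T => decide (¬ IsX (W.baseChange (AlgebraicClosure k)) (algebraMap k _ a) T)))
    (by
      intro σ τ
      have h4 := @IsR.isX_add _ _ _ _ _ _ (Classical.decEq _) hbR two_ne_zero hD.ab hD.ac hD.bc
        _ _ (ht σ) (ht τ)
      have h5 : f (σ * τ) = f σ + f τ := by rw [hf.2, tors_fix h (ht τ)]
      have h6 : IsX (W.baseChange (AlgebraicClosure k)) (algebraMap k _ a) (f (σ * τ)) ↔
          (IsX (W.baseChange (AlgebraicClosure k)) (algebraMap k _ a) (f σ) ↔
          IsX (W.baseChange (AlgebraicClosure k)) (algebraMap k _ a) (f τ)) := by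
        rw [h5]
        exact h4
      exact bool_xor h6)
  refine ⟨u, hu, fun s hs' σ => ?_⟩
  have hs0 : s ≠ 0 := by
    rintro rfl
    rw [zero_pow two_ne_zero, eq_comm, map_eq_zero] at hs'
    exact hu hs'
  have h7 := hs s hs' σ
  by_cases hX : IsX (W.baseChange (AlgebraicClosure k)) (algebraMap k _ a) (f σ)
  · simp only [hX, true_iff]
    exact h7.1 (by simp [hX])
  · simp only [hX, false_iff]
    rw [h7.2 (by simp [hX])]
    exact ne_neg hs0

/-- **the characters of a cocycle** -/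
theorem exists_kc (h : IsR W a b c) (hd : Ds a b c) {f : Coch W} (hf : IsCoc W f)
    (ht : ∀ σ, f σ + f σ = 0) : ∃ u v : k, u ≠ 0 ∧ v ≠ 0 ∧ Kc W a b f u v := by
  obtain ⟨u, hu, hu'⟩ := exists_one h hd hf ht
  obtain ⟨v, hv, hv'⟩ := exists_one h.swap hd.swap hf ht
  exact ⟨u, v, hu, hv, ht, hu', hv'⟩

/-- the character of a square root is additive -/
lemma chr {u : k} {s : AlgebraicClosure k}
    (hs : s ^ 2 = algebraMap k _ u) (σ τ : Gal k) :
    (σ * τ) s = s ↔ (σ s = s ↔ τ s = s) := by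
  rw [AlgEquiv.mul_apply]
  by_cases h0 : -s = s
  · rcases sq_or hs τ with h1 | h1 <;> rcases sq_or hs σ with h2 | h2 <;>
      simp [h1, h2, h0]
  · rcases sq_or hs τ with h1 | h1 <;> rcases sq_or hs σ with h2 | h2 <;>
      simp [h1, h2, h0]

/-- **the cocycle of a pair of square classes** -/
theorem exists_coc (h : IsR W a b c) (hd : Ds a b c) (u v : k) :
    ∃ f : Coch W, IsCoc W f ∧ Kc W a b f u v := by
  classical
  have h2 : (2 : AlgebraicClosure k) ≠ 0 := two_ne_zero
  have hbR := baseR h (AlgebraicClosure k)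
  have hD := hd.map (algebraMap k (AlgebraicClosure k))
  obtain ⟨s, hs⟩ := IsAlgClosed.exists_pow_nat_eq (algebraMap k (AlgebraicClosure k) u)
    (n := 2) (by norm_num)
  obtain ⟨s', hs'⟩ := IsAlgClosed.exists_pow_nat_eq (algebraMap k (AlgebraicClosure k) v)
    (n := 2) (by norm_num)
  have na := hbR.nons h2 hD.ab hD.ac hD.bc (x := algebraMap k _ a) (y := 0) (by ring)
  have nb := hbR.nons h2 hD.ab hD.ac hD.bc (x := algebraMap k _ b) (y := 0) (by ring)
  have nc := hbR.nons h2 hD.ab hD.ac hD.bc (x := algebraMap k _ c) (y := 0) (by ring)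
  have ta : sm (W := W) _ _ na + sm _ _ na = 0 :=
    (@IsR.add_self _ _ _ _ _ _ (Classical.decEq _) hbR h2 _ _ na).2 rfl
  have tb : sm (W := W) _ _ nb + sm _ _ nb = 0 :=
    (@IsR.add_self _ _ _ _ _ _ (Classical.decEq _) hbR h2 _ _ nb).2 rfl
  have tc : sm (W := W) _ _ nc + sm _ _ nc = 0 :=
    (@IsR.add_self _ _ _ _ _ _ (Classical.decEq _) hbR h2 _ _ nc).2 rfl
  obtain ⟨f, hf⟩ : ∃ f : Coch W, ∀ σ : Gal k, f σ = if σ s = s then
      (if σ s' = s' then 0 else sm _ _ na) else (if σ s' = s' then sm _ _ nb else sm _ _ nc) :=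
    ⟨fun σ => _, fun σ => rfl⟩
  have hfa : ∀ σ : Gal k, IsX (W.baseChange (AlgebraicClosure k)) (algebraMap k _ a) (f σ) ↔
      σ s = s := by
    intro σ
    rw [hf σ]
    by_cases h3 : σ s = s <;> by_cases h4 : σ s' = s'
    · simp only [h3, h4, if_true, iff_true]
      exact isX_zero _
    · simp only [h3, h4, if_true, if_false, iff_true]
      exact isX_some _
    · simp only [h3, h4, if_true, if_false, iff_false]
      exact not_isX _ hD.ab.symm
    · simp only [h3, h4, if_false, iff_false]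
      exact not_isX _ hD.ac.symm
  have hfb : ∀ σ : Gal k, IsX (W.baseChange (AlgebraicClosure k)) (algebraMap k _ b) (f σ) ↔
      σ s' = s' := by
    intro σ
    rw [hf σ]
    by_cases h3 : σ s = s <;> by_cases h4 : σ s' = s'
    · simp only [h3, h4, if_true, iff_true]
      exact isX_zero _
    · simp only [h3, h4, if_true, if_false, iff_false]
      exact not_isX _ hD.ab
    · simp only [h3, h4, if_true, if_false, iff_true]
      exact isX_some _
    · simp only [h3, h4, if_false, iff_false]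
      exact not_isX _ hD.bc.symm
  have hft : ∀ σ, f σ + f σ = 0 := by
    intro σ
    rw [hf σ]
    by_cases h3 : σ s = s <;> by_cases h4 : σ s' = s' <;>
      simp only [h3, h4, if_true, if_false, ta, tb, tc, add_zero]
  have hcoc : ∀ σ τ : Gal k, f (σ * τ) = f σ + act W σ.toAlgHom (f τ) := by
    intro σ τ
    rw [tors_fix h (hft τ)]
    have e1 : (f σ + f τ) + (f σ + f τ) = 0 := by
      have : (f σ + f τ) + (f σ + f τ) = (f σ + f σ) + (f τ + f τ) := by abel
      rw [this, hft, hft, add_zero]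
    refine @IsR.ext _ _ _ _ _ _ (Classical.decEq _) hbR h2 hD.ab hD.ac hD.bc _ _ (hft _) e1 ?_ ?_
    · have h4 := @IsR.isX_add _ _ _ _ _ _ (Classical.decEq _) hbR two_ne_zero hD.ab hD.ac hD.bc
        _ _ (hft σ) (hft τ)
      refine Iff.trans ?_ h4.symm
      rw [hfa, hfa, hfa]
      exact chr hs σ τ
    · have h4 := @IsR.isX_add _ _ _ _ _ _ (Classical.decEq _) hbR.swap two_ne_zero hD.ab.symm
        hD.bc hD.ac _ _ (hft σ) (hft τ)
      refine Iff.trans ?_ h4.symm
      rw [hfb, hfb, hfb]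
      exact chr hs' σ τ
  have hroot : ∀ {u : k} {s t : AlgebraicClosure k}, s ^ 2 = algebraMap k _ u →
      t ^ 2 = algebraMap k _ u → ∀ σ : Gal k, σ s = s ↔ σ t = t := by
    intro u s t hs ht σ
    rcases sq_eq_sq_iff_eq_or_eq_neg.1 (hs.trans ht.symm) with h5 | h5
    · rw [h5]
    · rw [h5, map_neg, neg_inj]
  refine ⟨f, Pool.Agent.TH841.NF.coc_of_fin hcoc {s, s'} fun τ hτ => ?_, hft, ?_, ?_⟩
  · have h3 : τ s = s := hτ s (by simp)
    have h4 : τ s' = s' := hτ s' (by simp)
    rw [hf, if_pos h3, if_pos h4]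
  · intro t ht σ
    rw [hfa, hroot hs ht]
  · intro t ht σ
    rw [hfb, hroot hs' ht]

/-- the cocycle is determined by the pair -/
theorem kc_ext (h : IsR W a b c) (hd : Ds a b c) {f g : Coch W} {u v : k} (hf : Kc W a b f u v)
    (hg : Kc W a b g u v) : f = g := by
  have hbR := baseR h (AlgebraicClosure k)
  have hD := hd.map (algebraMap k (AlgebraicClosure k))
  obtain ⟨s, hs⟩ := IsAlgClosed.exists_pow_nat_eq (algebraMap k (AlgebraicClosure k) u)
    (n := 2) (by norm_num)
  obtain ⟨s', hs'⟩ := IsAlgClosed.exists_pow_nat_eq (algebraMap k (AlgebraicClosure k) v)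
    (n := 2) (by norm_num)
  funext σ
  refine @IsR.ext _ _ _ _ _ _ (Classical.decEq _) hbR two_ne_zero hD.ab hD.ac hD.bc _ _ (hf.t σ)
    (hg.t σ) ?_ ?_
  · rw [hf.x s hs, hg.x s hs]
  · rw [hf.y s' hs', hg.y s' hs']

omit [CharZero k] in
lemma ne0 {u : k} (hu : u ≠ 0) {s : AlgebraicClosure k} (hs : s ^ 2 = algebraMap k _ u) :
    s ≠ 0 := by
  rintro rfl
  rw [zero_pow two_ne_zero, eq_comm, map_eq_zero] at hs
  exact hu hs

/-- equal characters, one class -/
lemma sq_one {u u' : k} {s s' : AlgebraicClosure k} (hs : s ^ 2 = algebraMap k _ u)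
    (hs' : s' ^ 2 = algebraMap k _ u') (h : ∀ σ : Gal k, σ s = s ↔ σ s' = s') :
    IsSquare (u * u') := by
  obtain ⟨z, hz⟩ : ∃ z : k, algebraMap k (AlgebraicClosure k) z = s * s' := by
    apply fix_mem
    intro σ
    rw [map_mul]
    by_cases h1 : σ s = s
    · rw [h1, (h σ).1 h1]
    · have h2 : σ s' ≠ s' := fun h' => h1 ((h σ).2 h')
      rcases sq_or hs σ with h3 | h3
      · exact absurd h3 h1
      · rcases sq_or hs' σ with h4 | h4
        · exact absurd h4 h2
        · rw [h3, h4, neg_mul_neg]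
  refine ⟨z, ?_⟩
  apply (algebraMap k (AlgebraicClosure k)).injective
  rw [map_mul, map_mul, hz, ← hs, ← hs']
  ring

/-- the pair is determined by the cocycle up to squares -/
theorem kc_sq {f : Coch W} {u v u' v' : k} (hf : Kc W a b f u v) (hg : Kc W a b f u' v') :
    IsSquare (u * u') ∧ IsSquare (v * v') := by
  obtain ⟨s, hs⟩ := IsAlgClosed.exists_pow_nat_eq (algebraMap k (AlgebraicClosure k) u)
    (n := 2) (by norm_num)
  obtain ⟨t, ht⟩ := IsAlgClosed.exists_pow_nat_eq (algebraMap k (AlgebraicClosure k) v)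
    (n := 2) (by norm_num)
  obtain ⟨s', hs'⟩ := IsAlgClosed.exists_pow_nat_eq (algebraMap k (AlgebraicClosure k) u')
    (n := 2) (by norm_num)
  obtain ⟨t', ht'⟩ := IsAlgClosed.exists_pow_nat_eq (algebraMap k (AlgebraicClosure k) v')
    (n := 2) (by norm_num)
  refine ⟨sq_one hs hs' fun σ => ?_, sq_one ht ht' fun σ => ?_⟩
  · rw [← hf.x s hs σ, ← hg.x s' hs' σ]
  · rw [← hf.y t ht σ, ← hg.y t' ht' σ]

omit [CharZero k] in
lemma one_of_sq {u u' : k} (hu : u ≠ 0) (hu' : u' ≠ 0) (h : IsSquare (u * u'))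
    {s : AlgebraicClosure k} (hs : s ^ 2 = algebraMap k _ u') : ∃ t : AlgebraicClosure k,
      t ^ 2 = algebraMap k _ u ∧ ∀ σ : Gal k, σ t = t ↔ σ s = s := by
  obtain ⟨z, hz⟩ := h
  have hz0 : z ≠ 0 := by
    rintro rfl
    rw [mul_zero] at hz
    exact mul_ne_zero hu hu' hz
  have hza : algebraMap k (AlgebraicClosure k) z ≠ 0 := (map_ne_zero _).2 hz0
  have hs0 := ne0 hu' hs
  refine ⟨algebraMap k _ z / s, ?_, fun σ => ?_⟩
  · rw [div_pow, hs, ← map_pow, ← map_div₀]
    congr 1
    rw [sq, ← hz]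
    field_simp
  · rw [map_div₀, AlgEquiv.commutes]
    constructor
    · intro h1
      rw [div_eq_div_iff ((map_ne_zero σ).2 hs0) hs0] at h1
      exact (mul_left_cancel₀ hza h1).symm
    · intro h1
      rw [h1]

omit [CharZero k] in
theorem kc_of_sq {f : Coch W} {u v u' v' : k} (hf : Kc W a b f u v) (hu : u ≠ 0) (hv : v ≠ 0)
    (hu' : u' ≠ 0) (hv' : v' ≠ 0) (h1 : IsSquare (u * u')) (h2 : IsSquare (v * v')) :
    Kc W a b f u' v' := by
  refine ⟨hf.t, fun s hs σ => ?_, fun s hs σ => ?_⟩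
  · obtain ⟨t, ht, h3⟩ := one_of_sq hu hu' h1 hs
    rw [hf.x t ht, h3]
  · obtain ⟨t, ht, h3⟩ := one_of_sq hv hv' h2 hs
    rw [hf.y t ht, h3]

end

end Pool.Agent.N891.QB
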