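import Mathlib
import Pool.Agent.N891.QB.LT
import Pool.Agent.Y682.Lcl

/-!
# Points with all the differences squares over the completions of a number field
-/

set_option autoImplicit false

namespace Pool.Agent.N891.QB

open NumberField IsDedekindDomain

open Pool.Agent.Y682 (vv exists_sqrt)

lemma hp_equiv {L L' : Type} [Field L] [Field L'] (φ : L ≃+* L') {a b c : L}
    (h : Hp L' (φ a) (φ b) (φ c)) : Hp L a b c := by
  obtain ⟨x, y, hy, hxy, ⟨r, hr⟩, ⟨s, hs⟩, ⟨t, ht⟩⟩ := h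
  refine ⟨φ.symm x, φ.symm y, ?_, ?_, ⟨φ.symm r, ?_⟩, ⟨φ.symm s, ?_⟩, ⟨φ.symm t, ?_⟩⟩
  · exact (map_ne_zero φ.symm).2 hy
  · apply φ.injective
    rw [map_pow, map_mul, map_mul, map_sub, map_sub, map_sub, φ.apply_symm_apply,
      φ.apply_symm_apply, hxy]
  · apply φ.injective
    rw [map_sub, map_mul, φ.apply_symm_apply, φ.apply_symm_apply, hr]
  · apply φ.injective
    rw [map_sub, map_mul, φ.apply_symm_apply, φ.apply_symm_apply, hs]
  · apply φ.injective
    rw [map_sub, map_mul, φ.apply_symm_apply, φ.apply_symm_apply, ht]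

lemma hp_real (a b c : ℝ) : Hp ℝ a b c := by
  obtain ⟨x, hx⟩ : ∃ x : ℝ, x = |a| + |b| + |c| + 1 := ⟨_, rfl⟩
  have a1 := le_abs_self a
  have a2 := le_abs_self b
  have a3 := le_abs_self c
  have b1 := abs_nonneg a
  have b2 := abs_nonneg b
  have b3 := abs_nonneg c
  have p1 : 0 < x - a := by linarith
  have p2 : 0 < x - b := by linarith
  have p3 : 0 < x - c := by linarith
  have hp : 0 < (x - a) * (x - b) * (x - c) := by positivity
  exact ⟨x, Real.sqrt ((x - a) * (x - b) * (x - c)), (Real.sqrt_pos.2 hp).ne', Real.sq_sqrt hp.le,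
    ⟨Real.sqrt (x - a), (Real.mul_self_sqrt p1.le).symm⟩,
    ⟨Real.sqrt (x - b), (Real.mul_self_sqrt p2.le).symm⟩,
    ⟨Real.sqrt (x - c), (Real.mul_self_sqrt p3.le).symm⟩⟩

lemma hp_complex (a b c : ℂ) : Hp ℂ a b c := by
  classical
  obtain ⟨x, hx⟩ := Infinite.exists_notMem_finset ({a, b, c} : Finset ℂ)
  simp only [Finset.mem_insert, Finset.mem_singleton, not_or] at hx
  have h1 : x - a ≠ 0 := sub_ne_zero.2 hx.1
  have h2 : x - b ≠ 0 := sub_ne_zero.2 hx.2.1
  have h3 : x - c ≠ 0 := sub_ne_zero.2 hx.2.2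
  obtain ⟨y, hy⟩ := IsAlgClosed.exists_pow_nat_eq ((x - a) * (x - b) * (x - c)) (n := 2)
    (by norm_num)
  have hsq : ∀ z : ℂ, IsSquare z := fun z => by
    obtain ⟨w, hw⟩ := IsAlgClosed.exists_pow_nat_eq z (n := 2) (by norm_num)
    exact ⟨w, by rw [← hw, sq]⟩
  refine ⟨x, y, ?_, hy, hsq _, hsq _, hsq _⟩
  rintro rfl
  rw [zero_pow two_ne_zero] at hy
  exact mul_ne_zero (mul_ne_zero h1 h2) h3 hy.symm

section

variable {K : Type} [Field K] [NumberField K]

theorem hp_inf (v : InfinitePlace K) (a b c : v.Completion) : Hp v.Completion a b c := by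
  rcases v.isReal_or_isComplex with hv | hv
  · exact hp_equiv (InfinitePlace.Completion.ringEquivRealOfIsReal hv) (hp_real _ _ _)
  · exact hp_equiv (InfinitePlace.Completion.ringEquivComplexOfIsComplex hv) (hp_complex _ _ _)

/-- a small element -/
lemma exists_small (v : HeightOneSpectrum (𝓞 K)) (a b c : v.adicCompletion K) :
    ∃ z : v.adicCompletion K, z ≠ 0 ∧ vv v (a * z ^ 2) < vv v 4 ∧ vv v (b * z ^ 2) < vv v 4 ∧
      vv v (c * z ^ 2) < vv v 4 := by
  have : CharZero (v.adicCompletion K) :=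
    charZero_of_injective_algebraMap (algebraMap K (v.adicCompletion K)).injective
  have h4 : vv v (4 : v.adicCompletion K) ≠ 0 := (Valuation.ne_zero_iff _).2 (by norm_num)
  obtain ⟨w, hw⟩ := HeightOneSpectrum.valuedAdicCompletion_surjective K v (WithZero.exp (-1 : ℤ))
  have hw' : vv v w = WithZero.exp (-1 : ℤ) := hw
  have hw0 : w ≠ 0 := by
    rintro rfl
    rw [map_zero] at hw'
    exact WithZero.exp_ne_zero hw'.symm
  have key : ∀ a : v.adicCompletion K, ∃ N : ℕ, ∀ n : ℕ, N ≤ n →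
      vv v (a * (w ^ n) ^ 2) < vv v 4 := by
    intro a
    by_cases ha : a = 0
    · refine ⟨0, fun n _ => ?_⟩
      rw [ha, zero_mul, map_zero]
      exact zero_lt_iff.2 h4
    · have hva : vv v a ≠ 0 := (Valuation.ne_zero_iff _).2 ha
      obtain ⟨m, hm⟩ : ∃ m : ℤ, vv v a = WithZero.exp m := ⟨WithZero.log (vv v a),
        (WithZero.exp_log hva).symm⟩
      obtain ⟨l, hl⟩ : ∃ l : ℤ, vv v 4 = WithZero.exp l := ⟨WithZero.log (vv v 4),
        (WithZero.exp_log h4).symm⟩
      refine ⟨(m - l + 1).toNat, fun n hn => ?_⟩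
      rw [map_mul, map_pow, map_pow, hw', hm, hl, ← WithZero.exp_nsmul, ← WithZero.exp_nsmul,
        ← WithZero.exp_add, WithZero.exp_lt_exp]
      simp only [nsmul_eq_mul]
      push_cast
      have h5 : m - l + 1 ≤ n := by
        have := Int.self_le_toNat (m - l + 1)
        omega
      linarith
  obtain ⟨n1, h1⟩ := key a
  obtain ⟨n2, h2⟩ := key b
  obtain ⟨n3, h3⟩ := key c
  exact ⟨w ^ (n1 + n2 + n3), pow_ne_zero _ hw0, h1 _ (by omega), h2 _ (by omega), h3 _ (by omega)⟩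

theorem hp_fin (v : HeightOneSpectrum (𝓞 K)) (a b c : v.adicCompletion K) :
    Hp (v.adicCompletion K) a b c := by
  obtain ⟨z, hz, h1, h2, h3⟩ := exists_small v (-a) (-b) (-c)
  obtain ⟨r, hr⟩ := exists_sqrt v _ h1
  obtain ⟨s, hs⟩ := exists_sqrt v _ h2
  obtain ⟨t, ht⟩ := exists_sqrt v _ h3
  have hne : ∀ {x r : v.adicCompletion K}, vv v x < vv v 4 → r ^ 2 = 1 + x → r ≠ 0 := by
    rintro x r hx hr rfl
    rw [zero_pow two_ne_zero] at hr
    have h5 : x = -1 := by linear_combination -hr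
    rw [h5, Valuation.map_neg, map_one] at hx
    have h6 : vv v (4 : v.adicCompletion K) ≤ 1 := by
      have h7 : (4 : v.adicCompletion K) = 1 + 1 + (1 + 1) := by norm_num
      rw [h7]
      refine (Valuation.map_add _ _ _).trans (max_le ?_ ?_) <;>
      · refine (Valuation.map_add _ _ _).trans (max_le ?_ ?_) <;> rw [map_one]
    exact absurd hx (not_lt.2 h6)
  have r0 := hne h1 hr
  have s0 := hne h2 hs
  have t0 := hne h3 ht
  refine ⟨1 / z ^ 2, r / z * (s / z) * (t / z), ?_, ?_, ⟨r / z, ?_⟩, ⟨s / z, ?_⟩, ⟨t / z, ?_⟩⟩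
  · exact mul_ne_zero (mul_ne_zero (div_ne_zero r0 hz) (div_ne_zero s0 hz)) (div_ne_zero t0 hz)
  · have e1 : (r / z) ^ 2 = 1 / z ^ 2 - a := by
      rw [div_pow, hr]
      field_simp
      ring
    have e2 : (s / z) ^ 2 = 1 / z ^ 2 - b := by
      rw [div_pow, hs]
      field_simp
      ring
    have e3 : (t / z) ^ 2 = 1 / z ^ 2 - c := by
      rw [div_pow, ht]
      field_simp
      ring
    rw [mul_pow, mul_pow, e1, e2, e3]
  · rw [← sq, div_pow, hr]
    field_simp
    ring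
  · rw [← sq, div_pow, hs]
    field_simp
    ring
  · rw [← sq, div_pow, ht]
    field_simp
    ring

end

end Pool.Agent.N891.QB
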