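import Mathlib
import Pool.Agent.N891.QB.Cc
import Pool.Agent.N891.QB.Hpt
import Pool.Agent.TH841.NF.ShaN

/-!
# The 2-descent over a number field: the order of the group of the elements of order two of `Ш`
-/

set_option autoImplicit false
set_option linter.unusedSectionVars false

namespace Pool.Agent.N891.QB

open WeierstrassCurve NumberField IsDedekindDomain

open Pool.Agent.TH841.SH (IsR IsX gf isX_zero isX_some not_isX)

open Pool.Agent.TH841.SH.D (Pt act Gal Coch IsCoc IsCob LocTriv cob)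

open Pool.Agent.TH841.NF.D (Sha shaCoc IsShaCoc)

open Pool.Agent.Y682 (aT sm sm_inj act_sm sm_ne_zero pt_zero_or fix_coord fix_mem act_some)

section cb

variable {k : Type} [Field k] [CharZero k] {W : WeierstrassCurve k}

/-- the coboundary of a point -/
noncomputable def dP (W : WeierstrassCurve k) (P : Pt W (AlgebraicClosure k)) : Coch W :=
  fun σ => act W σ.toAlgHom P - P

lemma dP_apply (P : Pt W (AlgebraicClosure k)) (σ : Gal k) :
    dP W P σ = act W σ.toAlgHom P - P := rfl

lemma dP_add (P Q : Pt W (AlgebraicClosure k)) : dP W (P + Q) = dP W P + dP W Q := by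
  funext σ
  show act W σ.toAlgHom (P + Q) - (P + Q) = (act W σ.toAlgHom P - P) + (act W σ.toAlgHom Q - Q)
  rw [map_add]
  abel

/-- coboundaries are locally trivial cocycles -/
lemma dP_coc (P : Pt W (AlgebraicClosure k)) : IsCoc W (dP W P) := by
  classical
  have hmul : ∀ σ τ : Gal k, act W (σ * τ).toAlgHom P = act W σ.toAlgHom (act W τ.toAlgHom P) :=
    fun σ τ => (Pool.Agent.TH841.NF.act_act W σ.toAlgHom τ.toAlgHom P).symm
  have hcoc : ∀ σ τ : Gal k, dP W P (σ * τ) = dP W P σ + act W σ.toAlgHom (dP W P τ) := by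
    intro σ τ
    rw [dP_apply, dP_apply, dP_apply, hmul, map_sub]
    abel
  rcases pt_zero_or P with h0 | ⟨u, v, hn, h0⟩
  · refine Pool.Agent.TH841.NF.coc_of_fin hcoc ∅ (fun τ _ => ?_)
    rw [dP_apply, h0, map_zero, sub_zero]
  · refine Pool.Agent.TH841.NF.coc_of_fin hcoc {u, v} (fun τ hτ => ?_)
    have h1 : τ.toAlgHom u = u := hτ u (by simp)
    have h2 : τ.toAlgHom v = v := hτ v (by simp)
    rw [dP_apply, h0, sub_eq_zero, act_sm]
    congr 1

lemma dP_loc (P : Pt W (AlgebraicClosure k)) (F : Type) [Field F] [Algebra k F] :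
    LocTriv W F (dP W P) := by
  intro ι
  refine ⟨act W ι P, fun τ σ hσ => ?_⟩
  rw [dP_apply, map_sub, Pool.Agent.TH841.NF.act_act, Pool.Agent.TH841.NF.act_act]
  congr 3
  exact AlgHom.ext fun x => (hσ x).symm

end cb

section

variable {K : Type} [Field K] [NumberField K] {W : WeierstrassCurve K} {a b c : K}

lemma dP_sha (P : Pt W (AlgebraicClosure K)) : IsShaCoc W (dP W P) :=
  ⟨dP_coc P, fun _ => dP_loc P _, fun _ => dP_loc P _⟩

/-- the locally trivial cocycles with values in the points killed by two -/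
def Z2 (W : WeierstrassCurve K) : AddSubgroup (Coch W) where
  carrier := {f | IsShaCoc W f ∧ ∀ σ, f σ + f σ = 0}
  zero_mem' := ⟨(shaCoc W).zero_mem, fun σ => by
    change (0 : Pt W (AlgebraicClosure K)) + 0 = 0
    rw [add_zero]⟩
  add_mem' := by
    rintro f g ⟨hf, hf'⟩ ⟨hg, hg'⟩
    refine ⟨(shaCoc W).add_mem hf hg, fun σ => ?_⟩
    change (f σ + g σ) + (f σ + g σ) = 0
    have : (f σ + g σ) + (f σ + g σ) = (f σ + f σ) + (g σ + g σ) := by abel
    rw [this, hf', hg', add_zero]
  neg_mem' := by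
    rintro f ⟨hf, hf'⟩
    refine ⟨(shaCoc W).neg_mem hf, fun σ => ?_⟩
    change -f σ + -f σ = 0
    rw [← neg_add, hf', neg_zero]

lemma Z2_le (W : WeierstrassCurve K) : Z2 W ≤ shaCoc W := fun _ hf => hf.1

/-- the local conditions -/
structure Sl (a b c : K) (z : K × K) : Prop where
  n1 : z.1 ≠ 0
  n2 : z.2 ≠ 0
  fin : ∀ v : HeightOneSpectrum (𝓞 K), Lc (algebraMap K (v.adicCompletion K) a)
    (algebraMap K (v.adicCompletion K) b) (algebraMap K (v.adicCompletion K) c)
    (algebraMap K (v.adicCompletion K) z.1) (algebraMap K (v.adicCompletion K) z.2)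
  inf : ∀ v : InfinitePlace K, Lc (algebraMap K v.Completion a)
    (algebraMap K v.Completion b) (algebraMap K v.Completion c)
    (algebraMap K v.Completion z.1) (algebraMap K v.Completion z.2)

lemma cz_adic (v : HeightOneSpectrum (𝓞 K)) : CharZero (v.adicCompletion K) :=
  charZero_of_injective_algebraMap (algebraMap K (v.adicCompletion K)).injective

lemma cz_inf (v : InfinitePlace K) : CharZero v.Completion :=
  charZero_of_injective_algebraMap (algebraMap K v.Completion).injective

/-- the class of a cocycle -/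
lemma exists_sl (h : IsR W a b c) (hd : Ds a b c) {f : Coch W} (hf : f ∈ Z2 W) :
    ∃ z : K × K, Sl a b c z ∧ Kc W a b f z.1 z.2 := by
  obtain ⟨⟨h1, h2, h3⟩, h4⟩ := hf
  obtain ⟨u, v, hu, hv, hk⟩ := exists_kc h hd h1 h4
  refine ⟨(u, v), ⟨hu, hv, fun w => ?_, fun w => ?_⟩, hk⟩
  · have := cz_adic w
    exact lc_of h hd hk (h2 w) (hp_fin w _ _ _)
  · have := cz_inf w
    exact lc_of h hd hk (h3 w) (hp_inf w _ _ _)

/-- the cocycle of a class -/
lemma exists_z2 (h : IsR W a b c) (hd : Ds a b c) {z : K × K} (hz : Sl a b c z) :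
    ∃ f : Z2 W, Kc W a b f.1 z.1 z.2 := by
  obtain ⟨f, hf, hk⟩ := exists_coc h hd z.1 z.2
  refine ⟨⟨f, ⟨hf, fun w => ?_, fun w => ?_⟩, hk.t⟩, hk⟩
  · have := cz_adic w
    exact loc_of h hd hz.n1 hz.n2 hk (hz.fin w)
  · have := cz_inf w
    exact loc_of h hd hz.n1 hz.n2 hk (hz.inf w)

/-- **the number of the locally trivial cocycles with values in the points of order two** -/
theorem card_Z2 (h : IsR W a b c) (hd : Ds a b c) (S : Finset (K × K))
    (hS : ∀ z ∈ S, Sl a b c z)
    (hS1 : ∀ z ∈ S, ∀ z' ∈ S, IsSquare (z.1 * z'.1) → IsSquare (z.2 * z'.2) → z = z')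
    (hS2 : ∀ z, Sl a b c z → ∃ z' ∈ S, IsSquare (z.1 * z'.1) ∧ IsSquare (z.2 * z'.2)) :
    Finite (Z2 W) ∧ Nat.card (Z2 W) = S.card := by
  choose g hg using fun z : S => exists_z2 h hd (hS z.1 z.2)
  have hbij : Function.Bijective g := by
    constructor
    · intro z z' hzz
      have h1 := hg z
      have h2 := hg z'
      rw [← hzz] at h2
      obtain ⟨h3, h4⟩ := kc_sq h1 h2
      exact Subtype.ext (hS1 z.1 z.2 z'.1 z'.2 h3 h4)
    · intro f
      obtain ⟨z, hz, hk⟩ := exists_sl h hd f.2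
      obtain ⟨z', hz', h3, h4⟩ := hS2 z hz
      have hk' := kc_of_sq hk hz.n1 hz.n2 (hS z' hz').n1 (hS z' hz').n2 h3 h4
      refine ⟨⟨z', hz'⟩, Subtype.ext ?_⟩
      exact kc_ext h hd (hg ⟨z', hz'⟩) hk'
  have hfin : Finite (Z2 W) := Finite.of_surjective g hbij.2
  refine ⟨hfin, ?_⟩
  rw [← Nat.card_eq_of_bijective g hbij]
  simp

/-! ### The points -/

/-- the points killed by two -/
def T2 (W : WeierstrassCurve K) : AddSubgroup (Pt W (AlgebraicClosure K)) where
  carrier := {P | P + P = 0}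
  zero_mem' := add_zero 0
  add_mem' := by
    intro P Q hP hQ
    change P + Q + (P + Q) = 0
    have h1 : P + Q + (P + Q) = (P + P) + (Q + Q) := by abel
    rw [h1, hP, hQ, add_zero]
  neg_mem' := by
    intro P hP
    change -P + -P = 0
    rw [← neg_add, hP, neg_zero]

/-- there are four points killed by two -/
lemma card_T2 (h : IsR W a b c) (hd : Ds a b c) : Nat.card (T2 W) = 4 := by
  have hR := baseR h (AlgebraicClosure K)
  have hD := hd.map (algebraMap K (AlgebraicClosure K))
  have h0 := hR.nons two_ne_zero hD.ab hD.ac hD.bc (x := algebraMap K _ a) (y := 0) (by ring)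
  have h1 := hR.nons two_ne_zero hD.ab hD.ac hD.bc (x := algebraMap K _ b) (y := 0) (by ring)
  have h2 := hR.nons two_ne_zero hD.ab hD.ac hD.bc (x := algebraMap K _ c) (y := 0) (by ring)
  have e0 : sm (W := W) _ _ h0 + sm _ _ h0 = 0 :=
    (@IsR.add_self _ _ _ _ _ _ (Classical.decEq _) hR two_ne_zero _ _ h0).2 rfl
  have e1 : sm (W := W) _ _ h1 + sm _ _ h1 = 0 :=
    (@IsR.add_self _ _ _ _ _ _ (Classical.decEq _) hR two_ne_zero _ _ h1).2 rfl
  have e2 : sm (W := W) _ _ h2 + sm _ _ h2 = 0 :=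
    (@IsR.add_self _ _ _ _ _ _ (Classical.decEq _) hR two_ne_zero _ _ h2).2 rfl
  let F : Option (Fin 3) → T2 W := fun i => match i with
    | none => 0
    | some 0 => ⟨sm _ _ h0, e0⟩
    | some 1 => ⟨sm _ _ h1, e1⟩
    | some 2 => ⟨sm _ _ h2, e2⟩
  have hF : Function.Bijective F := by
    constructor
    · intro i j hij
      have h := congrArg Subtype.val hij
      rcases i with _ | i <;> rcases j with _ | j
      · rfl
      · exfalso
        fin_cases j
        · exact sm_ne_zero h0 h.symm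
        · exact sm_ne_zero h1 h.symm
        · exact sm_ne_zero h2 h.symm
      · exfalso
        fin_cases i
        · exact sm_ne_zero h0 h
        · exact sm_ne_zero h1 h
        · exact sm_ne_zero h2 h
      · fin_cases i <;> fin_cases j
        · rfl
        · exact absurd (sm_inj (W := W) h).1 hD.ab
        · exact absurd (sm_inj (W := W) h).1 hD.ac
        · exact absurd (sm_inj (W := W) h).1.symm hD.ab
        · rfl
        · exact absurd (sm_inj (W := W) h).1 hD.bc
        · exact absurd (sm_inj (W := W) h).1.symm hD.ac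
        · exact absurd (sm_inj (W := W) h).1.symm hD.bc
        · rfl
    · rintro ⟨P, hP⟩
      rcases @IsR.tors _ _ _ _ _ _ (Classical.decEq _) hR two_ne_zero _ hP with
        h | ⟨ha, h⟩ | ⟨hb, h⟩ | ⟨hc, h⟩
      · exact ⟨none, Subtype.ext h.symm⟩
      · exact ⟨some 0, Subtype.ext h.symm⟩
      · exact ⟨some 1, Subtype.ext h.symm⟩
      · exact ⟨some 2, Subtype.ext h.symm⟩
  rw [← Nat.card_eq_of_bijective F hF]
  simp

/-- the points fixed by the Galois group -/
def H0 (W : WeierstrassCurve K) : AddSubgroup (Pt W (AlgebraicClosure K)) where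
  carrier := {P | ∀ σ : Gal K, act W σ.toAlgHom P = P}
  zero_mem' := fun σ => map_zero _
  add_mem' := by
    intro P Q hP hQ σ
    rw [map_add, hP σ, hQ σ]
  neg_mem' := by
    intro P hP σ
    rw [map_neg, hP σ]

/-- the points whose double is fixed by the Galois group -/
def H1 (W : WeierstrassCurve K) : AddSubgroup (Pt W (AlgebraicClosure K)) where
  carrier := {P | P + P ∈ H0 W}
  zero_mem' := by
    change (0 : Pt W (AlgebraicClosure K)) + 0 ∈ H0 W
    rw [add_zero]
    exact (H0 W).zero_mem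
  add_mem' := by
    intro P Q hP hQ
    change P + Q + (P + Q) ∈ H0 W
    have h1 : P + Q + (P + Q) = (P + P) + (Q + Q) := by abel
    rw [h1]
    exact (H0 W).add_mem hP hQ
  neg_mem' := by
    intro P hP
    change -P + -P ∈ H0 W
    rw [← neg_add]
    exact (H0 W).neg_mem hP

/-- doubling -/
noncomputable def dbl (W : WeierstrassCurve K) : H1 W →+ H0 W where
  toFun P := ⟨P.1 + P.1, P.2⟩
  map_zero' := Subtype.ext (add_zero 0)
  map_add' P Q := Subtype.ext (by
    change P.1 + Q.1 + (P.1 + Q.1) = (P.1 + P.1) + (Q.1 + Q.1)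
    abel)

lemma dbl_surj (h : IsR W a b c) (hd : Ds a b c) : Function.Surjective (dbl W) := by
  rintro ⟨P, hP⟩
  have hR := baseR h (AlgebraicClosure K)
  have hD := hd.map (algebraMap K (AlgebraicClosure K))
  obtain ⟨Q, hQ⟩ : ∃ Q : Pt W (AlgebraicClosure K), P = Q + Q :=
    @IsR.div _ _ _ _ _ _ (Classical.decEq _) _ hR two_ne_zero hD.ab hD.ac hD.bc P
  refine ⟨⟨Q, ?_⟩, Subtype.ext hQ.symm⟩
  change Q + Q ∈ H0 W
  rw [← hQ]
  exact hP

lemma card_dblker (h : IsR W a b c) (hd : Ds a b c) : Nat.card (dbl W).ker = 4 := by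
  rw [← card_T2 h hd]
  refine Nat.card_congr ⟨fun P => ⟨P.1.1, ?_⟩, fun P => ⟨⟨P.1, ?_⟩, ?_⟩, fun _ => rfl, fun _ => rfl⟩
  · exact congrArg Subtype.val P.2
  · change P.1 + P.1 ∈ H0 W
    rw [show P.1 + P.1 = 0 from P.2]
    exact (H0 W).zero_mem
  · rw [AddMonoidHom.mem_ker]
    exact Subtype.ext P.2

/-- the coboundary map -/
noncomputable def dlt (W : WeierstrassCurve K) : H1 W →+ Z2 W where
  toFun P := ⟨dP W P.1, dP_sha P.1, fun σ => by
    have h1 : act W σ.toAlgHom (P.1 + P.1) = P.1 + P.1 := P.2 σ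
    rw [dP_apply]
    have h2 : act W σ.toAlgHom P.1 - P.1 + (act W σ.toAlgHom P.1 - P.1) =
        act W σ.toAlgHom (P.1 + P.1) - (P.1 + P.1) := by
      rw [map_add]; abel
    rw [h2, h1, sub_self]⟩
  map_zero' := Subtype.ext (by
    funext σ
    change act W σ.toAlgHom (0 : Pt W (AlgebraicClosure K)) - 0 = 0
    rw [map_zero, sub_zero])
  map_add' P Q := Subtype.ext (dP_add P.1 Q.1)

lemma card_dltker (W : WeierstrassCurve K) : Nat.card (dlt W).ker = Nat.card (H0 W) := by
  refine Nat.card_congr ⟨fun P => ⟨P.1.1, fun σ => ?_⟩, fun P => ⟨⟨P.1, ?_⟩, ?_⟩, fun _ => rfl,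
    fun _ => rfl⟩
  · have h1 : dP W P.1.1 = 0 := congrArg Subtype.val P.2
    have h2 : act W σ.toAlgHom P.1.1 - P.1.1 = 0 := congrFun h1 σ
    exact sub_eq_zero.1 h2
  · exact (H0 W).add_mem P.2 P.2
  · rw [AddMonoidHom.mem_ker]
    refine Subtype.ext ?_
    funext σ
    change act W σ.toAlgHom P.1 - P.1 = 0
    rw [P.2 σ, sub_self]

/-- the fixed points are rational -/
lemma finite_H0 [Finite W.toAffine.Point] : Finite (H0 W) := by
  have hn : ∀ {x y : K}, W.toAffine.Nonsingular x y →
      (W.baseChange (AlgebraicClosure K)).toAffine.Nonsingular (algebraMap K _ x)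
        (algebraMap K _ y) := by
    intro x y h
    exact (Affine.map_nonsingular _ (algebraMap K (AlgebraicClosure K)).injective x y).2 h
  let j : W.toAffine.Point → Pt W (AlgebraicClosure K) := fun P => match P with
    | .zero => 0
    | .some x y h => sm _ _ (hn h)
  have hj : ∀ P ∈ H0 W, ∃ Q, j Q = P := by
    intro P hP
    rcases pt_zero_or P with h0 | ⟨u, v, h1, h0⟩
    · exact ⟨.zero, h0.symm⟩
    · have hfix : ∀ σ : Gal K, σ u = u ∧ σ v = v := by
        intro σ
        have h2 := hP σ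
        rw [h0, act_sm] at h2
        exact sm_inj (W := W) h2
      obtain ⟨x, hx⟩ := fix_mem u fun σ => (hfix σ).1
      obtain ⟨y, hy⟩ := fix_mem v fun σ => (hfix σ).2
      subst hx hy
      have h3 : W.toAffine.Nonsingular x y :=
        (Affine.map_nonsingular _ (algebraMap K (AlgebraicClosure K)).injective x y).1 h1
      exact ⟨.some x y h3, h0.symm⟩
  exact Set.Finite.subset (Set.finite_range j) (fun P hP => hj P hP)

/-- there are four coboundaries -/
lemma card_dlt (h : IsR W a b c) (hd : Ds a b c) [Finite W.toAffine.Point] :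
    Nat.card (dlt W).range = 4 := by
  have hfin : Finite (H0 W) := finite_H0
  have hpos : 0 < Nat.card (H0 W) := Nat.card_pos
  have e1 : Nat.card (H1 W) = Nat.card (H0 W) * 4 := by
    rw [AddSubgroup.card_eq_card_quotient_mul_card_addSubgroup (dbl W).ker, card_dblker h hd]
    congr 1
    exact Nat.card_congr (QuotientAddGroup.quotientKerEquivOfSurjective _ (dbl_surj h hd)).toEquiv
  have e2 : Nat.card (H1 W) = Nat.card (dlt W).range * Nat.card (H0 W) := by
    rw [AddSubgroup.card_eq_card_quotient_mul_card_addSubgroup (dlt W).ker, card_dltker]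
    congr 1
    exact Nat.card_congr (QuotientAddGroup.quotientKerEquivRange _).toEquiv
  rw [e1, mul_comm] at e2
  exact (Nat.eq_of_mul_eq_mul_right hpos e2).symm

/-! ### The Tate-Shafarevich group -/

/-- the class of a cocycle -/
noncomputable def toS (W : WeierstrassCurve K) : Z2 W →+ Sha W :=
  (QuotientAddGroup.mk' ((cob W).addSubgroupOf (shaCoc W))).comp
    (AddSubgroup.inclusion (Z2_le W))

lemma toS_ker (W : WeierstrassCurve K) : (toS W).ker = (dlt W).range := by
  ext f
  have h1 : f ∈ (toS W).ker ↔ IsCob W f.1 := by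
    rw [AddMonoidHom.mem_ker]
    exact QuotientAddGroup.eq_zero_iff (N := (cob W).addSubgroupOf (shaCoc W))
      (AddSubgroup.inclusion (Z2_le W) f)
  rw [h1]
  constructor
  · rintro ⟨P, hP⟩
    have hP' : ∀ σ, f.1 σ = act W σ.toAlgHom P - P := hP
    refine ⟨⟨P, fun σ => ?_⟩, Subtype.ext ?_⟩
    · have h2 := f.2.2 σ
      rw [hP'] at h2
      rw [map_add]
      have h3 : act W σ.toAlgHom P + act W σ.toAlgHom P - (P + P) = 0 := by
        rw [← h2]; abel
      exact sub_eq_zero.1 h3
    · funext σ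
      exact (hP' σ).symm
  · rintro ⟨P, rfl⟩
    exact ⟨P.1, fun σ => rfl⟩

lemma toS_range (h : IsR W a b c) (hd : Ds a b c) (x : Sha W) :
    x ∈ (toS W).range ↔ 2 • x = 0 := by
  constructor
  · rintro ⟨f, rfl⟩
    rw [← map_nsmul]
    have h1 : 2 • f = 0 := by
      rw [two_nsmul]
      refine Subtype.ext ?_
      funext σ
      exact f.2.2 σ
    rw [h1, map_zero]
  · intro hx
    induction x using QuotientAddGroup.induction_on with
    | H f0 =>
      have h1 : IsCob W ((2 • f0 : shaCoc W) : Coch W) :=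
        (QuotientAddGroup.eq_zero_iff (2 • f0)).1 hx
      obtain ⟨P0, hP0⟩ := h1
      have hR := baseR h (AlgebraicClosure K)
      have hD := hd.map (algebraMap K (AlgebraicClosure K))
      obtain ⟨Q0, hQ0⟩ : ∃ Q : Pt W (AlgebraicClosure K), P0 = Q + Q :=
        @IsR.div _ _ _ _ _ _ (Classical.decEq _) _ hR two_ne_zero hD.ab hD.ac hD.bc P0
      have h2 : ∀ σ, f0.1 σ + f0.1 σ = dP W Q0 σ + dP W Q0 σ := by
        intro σ
        have h3 : f0.1 σ + f0.1 σ = act W σ.toAlgHom P0 - P0 := by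
          rw [← hP0 σ, two_nsmul]
          rfl
        rw [h3, hQ0, dP_apply, map_add]
        abel
      refine ⟨⟨f0.1 - dP W Q0, (shaCoc W).sub_mem f0.2 (dP_sha Q0), fun σ => ?_⟩, ?_⟩
      · change (f0.1 σ - dP W Q0 σ) + (f0.1 σ - dP W Q0 σ) = 0
        have h3 : (f0.1 σ - dP W Q0 σ) + (f0.1 σ - dP W Q0 σ) =
            (f0.1 σ + f0.1 σ) - (dP W Q0 σ + dP W Q0 σ) := by abel
        rw [h3, h2, sub_self]
      · refine (QuotientAddGroup.eq (s := (cob W).addSubgroupOf (shaCoc W))).2 ?_
        change IsCob W (-(f0.1 - dP W Q0) + f0.1)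
        refine ⟨Q0, fun σ => ?_⟩
        change -(f0.1 σ - dP W Q0 σ) + f0.1 σ = _
        rw [dP_apply]
        abel

/-- **the order of the group of the elements of order two of `Ш`** -/
theorem card_sha (h : IsR W a b c) (hd : Ds a b c) [Finite W.toAffine.Point] [Finite (Z2 W)] :
    Finite {x : Sha W // 2 • x = 0} ∧
    Nat.card (Z2 W) = 4 * Nat.card {x : Sha W // 2 • x = 0} := by
  have e0 : Nat.card {x : Sha W // 2 • x = 0} = Nat.card (toS W).range :=
    Nat.card_congr (Equiv.subtypeEquivRight (fun x => (toS_range h hd x).symm))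
  have hfr : Finite (toS W).range :=
    Finite.of_surjective (toS W).rangeRestrict (AddMonoidHom.rangeRestrict_surjective _)
  refine ⟨Finite.of_equiv _ (Equiv.subtypeEquivRight (fun x => toS_range h hd x)), ?_⟩
  have e1 : Nat.card (Z2 W) = Nat.card (toS W).range * Nat.card (toS W).ker := by
    rw [AddSubgroup.card_eq_card_quotient_mul_card_addSubgroup (toS W).ker]
    congr 1
    exact Nat.card_congr (QuotientAddGroup.quotientKerEquivRange (toS W)).toEquiv
  rw [e1, e0, toS_ker, card_dlt h hd, mul_comm]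

end

end Pool.Agent.N891.QB
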