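import Pool.Agent.N856.QB.Stm
import Pool.Agent.N891.QB.Glo

/-!
# QB-DESC: the 2-descent over a number field
-/

set_option autoImplicit false

open NumberField IsDedekindDomain WeierstrassCurve

namespace Pool.Agent.N891.QB

open Pool.Agent.N856.QB (Se Lo)

lemma se_iff {K : Type} [Field K] [NumberField K] (a b c : ℤ) (z : K × K) :
    z ∈ Se K a b c ↔ Sl (a : K) (b : K) (c : K) z := by
  have key : ∀ (L : Type) [Field L] [Algebra K L], Lo L a b c (algebraMap K L z.1)
      (algebraMap K L z.2) ↔ Lc (algebraMap K L (a : K)) (algebraMap K L (b : K))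
        (algebraMap K L (c : K)) (algebraMap K L z.1) (algebraMap K L z.2) := by
    intro L _ _
    unfold Lo Lc
    rw [map_intCast, map_intCast, map_intCast]
  constructor
  · rintro ⟨h1, h2, h3, h4⟩
    exact ⟨h1, h2, fun v => (key _).1 (h3 v), fun v => (key _).1 (h4 v)⟩
  · rintro ⟨h1, h2, h3, h4⟩
    exact ⟨h1, h2, fun v => (key _).2 (h3 v), fun v => (key _).2 (h4 v)⟩

/-- **QB-DESC** -/
theorem t_DESC : Pool.Agent.N856.QB.S_DESC := by
  intro K _ _ W a b c hab hac hbc h hfin S hS hS1 hS2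
  have hd : Ds (a : K) (b : K) (c : K) :=
    ⟨by exact_mod_cast hab, by exact_mod_cast hac, by exact_mod_cast hbc⟩
  obtain ⟨hz, hc⟩ := card_Z2 h hd S (fun z hz => (se_iff a b c z).1 (hS z hz)) hS1
    (fun z hz => hS2 z ((se_iff a b c z).2 hz))
  obtain ⟨h1, h2⟩ := card_sha h hd
  exact ⟨h1, by rw [← hc, h2]⟩

end Pool.Agent.N891.QB
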